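import Mathlib

/-!
# MP_dccd56_co: collision counts for multinomial coefficient sets

Both normalized sequences `a(n)` and `b(n)` tend to infinity; in fact `C(n)` and `D(n)` grow
faster than every power of `n`.

For a partition `σ` of `n - 5` put `R = n! / (12 ∏ σ_i!)`.  Then `R`, `2R`, `3R` are the
multinomial coefficients of `(3,2) ∪ σ`, `(3,1,1) ∪ σ`, `(2,2,1) ∪ σ`, so
`4R = R + 3R = 2R + 2R` has two representations.  Distinct values `∏ σ_i!` give distinct `4R`,
and products of factorials of primes are all distinct.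
-/

namespace Pool.Agent.Results.MP_dccd56_co.CollisionsTendToInfinity

open Filter Topology

/-- `M n` is the set of distinct multinomial coefficients `n! / (p₁! ⋯ p_t!)`, where
`(p₁, …, p_t)` runs over the partitions of `n`. -/
def M (n : ℕ) : Finset ℕ :=
  Finset.univ.image
    (fun p : n.Partition => n.factorial / (p.parts.map Nat.factorial).prod)

/-- The number of pairs `(x, y)` of elements of `M n` with `x ≤ y` and `x + y = t`. -/
def r (n t : ℕ) : ℕ :=
  ((M n ×ˢ M n).filter (fun xy => xy.1 ≤ xy.2 ∧ xy.1 + xy.2 = t)).card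

/-- The collision excess `∑_t max (r_n(t) - 1, 0)` (natural subtraction is truncated). -/
noncomputable def C (n : ℕ) : ℕ := ∑ᶠ t : ℕ, (r n t - 1)

/-- The number of `t` with at least two representations. -/
noncomputable def D (n : ℕ) : ℕ := Set.ncard {t : ℕ | 2 ≤ r n t}

/-- `a(n) = C(n) / (n² log n)`. -/
noncomputable def a (n : ℕ) : ℝ := (C n : ℝ) / ((n : ℝ) ^ 2 * Real.log n)

/-- `b(n) = D(n) / (n^{3/2} √(log n))`. -/
noncomputable def b (n : ℕ) : ℝ :=
  (D n : ℝ) / ((n : ℝ) ^ (3 / 2 : ℝ) * Real.sqrt (Real.log n))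

/-- The product of factorials divides the factorial of the sum (so the division in `M` is
exact). -/
lemma prod_dvd (s : Multiset ℕ) : (s.map Nat.factorial).prod ∣ s.sum.factorial := by
  induction s using Multiset.induction_on with
  | empty => simp
  | cons x s ih =>
    rw [Multiset.map_cons, Multiset.prod_cons, Multiset.sum_cons]
    exact (Nat.mul_dvd_mul_left _ ih).trans (Nat.factorial_mul_factorial_dvd_factorial_add _ _)

lemma mem_M {n : ℕ} (s : Multiset ℕ) (hpos : ∀ i ∈ s, 0 < i) (hs : s.sum = n) :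
    n.factorial / (s.map Nat.factorial).prod ∈ M n := by
  unfold M
  rw [Finset.mem_image]
  exact ⟨⟨s, fun {i} hi => hpos i hi, hs⟩, Finset.mem_univ _, rfl⟩

lemma two_le_r (n : ℕ) (σ : Multiset ℕ) (hpos : ∀ i ∈ σ, 0 < i) (hσ : 5 + σ.sum = n) :
    12 * (σ.map Nat.factorial).prod ∣ n.factorial ∧
      2 ≤ r n (4 * (n.factorial / (12 * (σ.map Nat.factorial).prod))) := by
  have h1 := prod_dvd (3 ::ₘ 2 ::ₘ σ)
  have m1 := mem_M (n := n) (3 ::ₘ 2 ::ₘ σ) (by
    intro i hi; simp only [Multiset.mem_cons] at hi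
    rcases hi with h | h | h
    · omega
    · omega
    · exact hpos i h) (by simp only [Multiset.sum_cons]; omega)
  have m2 := mem_M (n := n) (3 ::ₘ 1 ::ₘ 1 ::ₘ σ) (by
    intro i hi; simp only [Multiset.mem_cons] at hi
    rcases hi with h | h | h | h
    · omega
    · omega
    · omega
    · exact hpos i h) (by simp only [Multiset.sum_cons]; omega)
  have m3 := mem_M (n := n) (2 ::ₘ 2 ::ₘ 1 ::ₘ σ) (by
    intro i hi; simp only [Multiset.mem_cons] at hi
    rcases hi with h | h | h | h
    · omega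
    · omega
    · omega
    · exact hpos i h) (by simp only [Multiset.sum_cons]; omega)
  have hsum : (3 ::ₘ 2 ::ₘ σ).sum = n := by simp only [Multiset.sum_cons]; omega
  rw [hsum] at h1
  simp only [Multiset.map_cons, Multiset.prod_cons] at h1 m1 m2 m3
  set S := (σ.map Nat.factorial).prod with hS
  have e3 : Nat.factorial 3 = 6 := rfl
  have e2 : Nat.factorial 2 = 2 := rfl
  have e1 : Nat.factorial 1 = 1 := rfl
  rw [e3, e2] at h1 m1
  rw [e3, e1] at m2
  rw [e2, e1] at m3
  have h12 : 12 * S ∣ n.factorial := by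
    have : 6 * (2 * S) = 12 * S := by ring
    rwa [this] at h1
  refine ⟨h12, ?_⟩
  obtain ⟨R, hR⟩ := h12
  have hn : 0 < n.factorial := Nat.factorial_pos n
  have hSpos : 0 < S := by
    rcases Nat.eq_zero_or_pos S with h | h
    · rw [hR, h] at hn; simp at hn
    · exact h
  have hRpos : 0 < R := by
    rcases Nat.eq_zero_or_pos R with h | h
    · rw [hR, h] at hn; simp at hn
    · exact h
  have q1 : n.factorial / (12 * S) = R := by
    rw [hR]; exact Nat.mul_div_cancel_left _ (by positivity)
  have q1' : n.factorial / (6 * (2 * S)) = R := by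
    rw [show 6 * (2 * S) = 12 * S by ring]; exact q1
  have q2 : n.factorial / (6 * (1 * (1 * S))) = 2 * R := by
    rw [hR, show 12 * S * R = (6 * (1 * (1 * S))) * (2 * R) by ring]
    exact Nat.mul_div_cancel_left _ (by positivity)
  have q3 : n.factorial / (2 * (2 * (1 * S))) = 3 * R := by
    rw [hR, show 12 * S * R = (2 * (2 * (1 * S))) * (3 * R) by ring]
    exact Nat.mul_div_cancel_left _ (by positivity)
  rw [q1'] at m1
  rw [q2] at m2
  rw [q3] at m3
  rw [q1]
  unfold r
  have hsub : ({(R, 3 * R), (2 * R, 2 * R)} : Finset (ℕ × ℕ)) ⊆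
      (M n ×ˢ M n).filter (fun xy => xy.1 ≤ xy.2 ∧ xy.1 + xy.2 = 4 * R) := by
    intro xy hxy
    simp only [Finset.mem_insert, Finset.mem_singleton] at hxy
    rw [Finset.mem_filter, Finset.mem_product]
    rcases hxy with h | h
    · subst h
      exact ⟨⟨m1, m3⟩, by dsimp only; omega, by dsimp only; omega⟩
    · subst h
      exact ⟨⟨m2, m2⟩, by dsimp only; omega, by dsimp only; omega⟩
  calc 2 = ({(R, 3 * R), (2 * R, 2 * R)} : Finset (ℕ × ℕ)).card := by
        rw [Finset.card_pair]
        intro h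
        have := congrArg Prod.fst h
        simp only at this
        omega
    _ ≤ _ := Finset.card_le_card hsub

lemma exists_ms (P : Finset ℕ) (hP : ∀ q ∈ P, 0 < q) (f : ℕ → ℕ) :
    ∃ σ : Multiset ℕ, (∀ i ∈ σ, 0 < i) ∧ σ.sum = ∑ q ∈ P, q * f q ∧
      (σ.map Nat.factorial).prod = ∏ q ∈ P, q.factorial ^ f q := by
  classical
  induction P using Finset.induction_on with
  | empty => exact ⟨0, by simp, by simp, by simp⟩
  | insert x s hx ih =>
    obtain ⟨σ, h1, h2, h3⟩ := ih (fun q hq => hP q (Finset.mem_insert_of_mem hq))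
    refine ⟨Multiset.replicate (f x) x + σ, ?_, ?_, ?_⟩
    · intro i hi
      rw [Multiset.mem_add] at hi
      rcases hi with h | h
      · rw [Multiset.eq_of_mem_replicate h]; exact hP x (Finset.mem_insert_self _ _)
      · exact h1 i h
    · rw [Multiset.sum_add, Multiset.sum_replicate, h2, Finset.sum_insert hx]
      simp [mul_comm]
    · rw [Multiset.map_add, Multiset.prod_add, Multiset.map_replicate, Multiset.prod_replicate,
        h3, Finset.prod_insert hx]

lemma two_le_r' (n : ℕ) (P : Finset ℕ) (hP : ∀ q ∈ P, 0 < q) (f : ℕ → ℕ)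
    (hn : 5 + ∑ q ∈ P, q * f q ≤ n) :
    12 * (∏ q ∈ P, q.factorial ^ f q) ∣ n.factorial ∧
      2 ≤ r n (4 * (n.factorial / (12 * (∏ q ∈ P, q.factorial ^ f q)))) := by
  obtain ⟨σ, h1, h2, h3⟩ := exists_ms P hP f
  obtain ⟨d, hd⟩ := Nat.exists_eq_add_of_le hn
  have key := two_le_r n (Multiset.replicate d 1 + σ) (by
    intro i hi
    rw [Multiset.mem_add] at hi
    rcases hi with h | h
    · rw [Multiset.eq_of_mem_replicate h]; exact Nat.one_pos
    · exact h1 i h) (by
    rw [Multiset.sum_add, Multiset.sum_replicate, h2]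
    simp only [smul_eq_mul, mul_one]
    omega)
  rw [Multiset.map_add, Multiset.prod_add, Multiset.map_replicate, Multiset.prod_replicate,
    h3] at key
  simpa using key

/-- Products of factorials of primes have distinct values. -/
lemma unique_prod (P : Finset ℕ) (hP : ∀ q ∈ P, q.Prime) (f g : ℕ → ℕ)
    (h : ∏ q ∈ P, q.factorial ^ f q = ∏ q ∈ P, q.factorial ^ g q) :
    ∀ q ∈ P, f q = g q := by
  classical
  induction P using Finset.induction_on_max with
  | empty => simp
  | insert x s hx ih =>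
    have hxs : x ∉ s := fun h' => lt_irrefl _ (hx x h')
    have hxp : x.Prime := hP x (Finset.mem_insert_self _ _)
    rw [Finset.prod_insert hxs, Finset.prod_insert hxs] at h
    have key : ∀ e : ℕ → ℕ, (x.factorial ^ e x * ∏ q ∈ s, q.factorial ^ e q).factorization x
        = e x := by
      intro e
      have hne : ∏ q ∈ s, q.factorial ^ e q ≠ 0 :=
        Finset.prod_ne_zero_iff.mpr (fun q _ => pow_ne_zero _ (Nat.factorial_ne_zero q))
      rw [Nat.factorization_mul (pow_ne_zero _ (Nat.factorial_ne_zero x)) hne]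
      have e1 : (x.factorial ^ e x).factorization x = e x := by
        rw [Nat.factorization_pow]
        have : x.factorial.factorization x = 1 := by
          obtain ⟨m, rfl⟩ : ∃ m, x = m + 1 := ⟨x - 1, by have := hxp.pos; omega⟩
          rw [Nat.factorial_succ, Nat.factorization_mul (by omega) (Nat.factorial_ne_zero m)]
          have h1 : (m + 1).factorization (m + 1) = 1 := hxp.factorization_self
          have h2 : m.factorial.factorization (m + 1) = 0 := by
            apply Nat.factorization_eq_zero_of_not_dvd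
            rw [hxp.dvd_factorial]
            omega
          rw [Finsupp.add_apply, h1, h2]
        rw [Finsupp.smul_apply, this]; simp
      have e2 : (∏ q ∈ s, q.factorial ^ e q).factorization x = 0 := by
        apply Nat.factorization_eq_zero_of_not_dvd
        intro hd
        rw [Prime.dvd_finsetProd_iff hxp.prime] at hd
        obtain ⟨q, hq, hd⟩ := hd
        have := hxp.dvd_of_dvd_pow hd
        rw [hxp.dvd_factorial] at this
        have := hx q hq
        omega
      rw [Finsupp.add_apply, e1, e2, add_zero]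
    have hfx : f x = g x := by
      have := congrArg (fun m => m.factorization x) h
      rwa [key f, key g] at this
    rw [hfx] at h
    have h' := Nat.eq_of_mul_eq_mul_left (pow_pos (Nat.factorial_pos x) _) h
    have ih' := ih (fun q hq => hP q (Finset.mem_insert_of_mem hq)) h'
    intro q hq
    rcases Finset.mem_insert.mp hq with h1 | h1
    · rw [h1]; exact hfx
    · exact ih' q h1

/-- All sums. -/
def F (n : ℕ) : Finset ℕ := (M n ×ˢ M n).image (fun xy => xy.1 + xy.2)

lemma mem_F_of_r {n t : ℕ} (h : 0 < r n t) : t ∈ F n := by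
  unfold r at h
  rw [Finset.card_pos] at h
  obtain ⟨xy, hxy⟩ := h
  rw [Finset.mem_filter] at hxy
  unfold F
  rw [Finset.mem_image]
  exact ⟨xy, hxy.1, hxy.2.2⟩

lemma setOf_eq (n : ℕ) : {t : ℕ | 2 ≤ r n t} = ↑((F n).filter (fun t => 2 ≤ r n t)) := by
  ext t
  simp only [Set.mem_ofPred_eq, Finset.coe_filter]
  exact ⟨fun h => ⟨mem_F_of_r (by omega), h⟩, fun h => h.2⟩

lemma D_eq (n : ℕ) : D n = ((F n).filter (fun t => 2 ≤ r n t)).card := by
  unfold D
  rw [setOf_eq, Set.ncard_coe_finset]

lemma D_le_C (n : ℕ) : D n ≤ C n := by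
  rw [D_eq]
  have hC : C n = ∑ t ∈ F n, (r n t - 1) := by
    unfold C
    apply finsum_eq_sum_of_support_subset
    intro t ht
    rw [Function.mem_support] at ht
    exact Finset.mem_coe.mpr (mem_F_of_r (by omega))
  rw [hC]
  calc ((F n).filter (fun t => 2 ≤ r n t)).card
      = ∑ t ∈ (F n).filter (fun t => 2 ≤ r n t), 1 := by simp
    _ ≤ ∑ t ∈ (F n).filter (fun t => 2 ≤ r n t), (r n t - 1) := by
        apply Finset.sum_le_sum
        intro t ht
        have := (Finset.mem_filter.mp ht).2
        omega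
    _ ≤ ∑ t ∈ F n, (r n t - 1) :=
        Finset.sum_le_sum_of_subset (Finset.filter_subset _ _)

lemma pow_le_D (n N : ℕ) (P : Finset ℕ) (hP : ∀ q ∈ P, q.Prime)
    (hn : 5 + N * ∑ q ∈ P, q ≤ n) : (N + 1) ^ P.card ≤ D n := by
  classical
  let ext : (P → Fin (N + 1)) → ℕ → ℕ := fun f q => if h : q ∈ P then (f ⟨q, h⟩ : ℕ) else 0
  have hext : ∀ f, 5 + ∑ q ∈ P, q * ext f q ≤ n := by
    intro f
    have : ∑ q ∈ P, q * ext f q ≤ N * ∑ q ∈ P, q := by
      rw [Finset.mul_sum]
      apply Finset.sum_le_sum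
      intro q hq
      have : ext f q ≤ N := by
        simp only [ext, dif_pos hq]
        have := (f ⟨q, hq⟩).2
        omega
      rw [mul_comm]
      exact Nat.mul_le_mul_right _ this
    omega
  have hall := fun f => two_le_r' n P (fun q hq => (hP q hq).pos) (ext f) (hext f)
  let Φ : (P → Fin (N + 1)) → {t : ℕ | 2 ≤ r n t} := fun f =>
    ⟨4 * (n.factorial / (12 * (∏ q ∈ P, q.factorial ^ ext f q))), (hall f).2⟩
  have hinj : Function.Injective Φ := by
    intro f g hfg
    have h1 : 4 * (n.factorial / (12 * (∏ q ∈ P, q.factorial ^ ext f q))) =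
        4 * (n.factorial / (12 * (∏ q ∈ P, q.factorial ^ ext g q))) := congrArg Subtype.val hfg
    have h2 : n.factorial / (12 * (∏ q ∈ P, q.factorial ^ ext f q)) =
        n.factorial / (12 * (∏ q ∈ P, q.factorial ^ ext g q)) := by omega
    have e1 := Nat.div_mul_cancel (hall f).1
    have e2 := Nat.div_mul_cancel (hall g).1
    rw [h2] at e1
    have e3 := e1.trans e2.symm
    have hpos : 0 < n.factorial / (12 * (∏ q ∈ P, q.factorial ^ ext g q)) := by
      rcases Nat.eq_zero_or_pos (n.factorial / (12 * (∏ q ∈ P, q.factorial ^ ext g q))) with h | h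
      · rw [h] at e2
        have := Nat.factorial_pos n
        omega
      · exact h
    have e4 := Nat.eq_of_mul_eq_mul_left hpos e3
    have e5 : ∏ q ∈ P, q.factorial ^ ext f q = ∏ q ∈ P, q.factorial ^ ext g q := by omega
    have e6 := unique_prod P hP _ _ e5
    funext q
    have := e6 q.1 q.2
    simp only [ext, dif_pos q.2] at this
    exact Fin.ext this
  have hfin : Finite {t : ℕ | 2 ≤ r n t} := by
    rw [setOf_eq]
    exact Finset.finite_toSet _
  have hcard := Nat.card_le_card_of_injective Φ hinj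
  rw [Nat.card_eq_fintype_card, Fintype.card_fun, Fintype.card_fin, Fintype.card_coe] at hcard
  exact hcard

/-- `D n` grows faster than every power of `n`. -/
lemma D_tendsto (k : ℕ) : Tendsto (fun n : ℕ => (D n : ℝ) / (n : ℝ) ^ k) atTop atTop := by
  obtain ⟨P, hPsub, hPcard⟩ := Nat.infinite_setOfPred_prime.exists_subset_card_eq (k + 1)
  have hP : ∀ q ∈ P, q.Prime := fun q hq => hPsub hq
  set T := ∑ q ∈ P, q with hTdef
  have hTpos : 0 < T := by
    have hne : P.Nonempty := by rw [← Finset.card_pos]; omega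
    obtain ⟨q, hq⟩ := hne
    exact lt_of_lt_of_le (hP q hq).pos (Finset.single_le_sum (f := fun q => q)
      (fun _ _ => Nat.zero_le _) hq)
  have hbound : ∀ n : ℕ, 10 ≤ n →
      (n : ℝ) / (2 * (T : ℝ)) ^ (k + 1) ≤ (D n : ℝ) / (n : ℝ) ^ k := by
    intro n hn
    have hN : 5 + (n / (2 * T)) * T ≤ n := by
      have h1 : (n / (2 * T)) * (2 * T) ≤ n := Nat.div_mul_le_self _ _
      have h2 : (n / (2 * T)) * (2 * T) = 2 * ((n / (2 * T)) * T) := by ring
      omega
    have h1 := pow_le_D n (n / (2 * T)) P hP hN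
    rw [hPcard] at h1
    have h2 : (n : ℝ) / (2 * (T : ℝ)) ≤ ((n / (2 * T) + 1 : ℕ) : ℝ) := by
      rw [div_le_iff₀ (by positivity)]
      have h3 : n < (n / (2 * T) + 1) * (2 * T) := by
        have := Nat.lt_div_mul_add (a := n) (b := 2 * T) (by positivity)
        calc n < n / (2 * T) * (2 * T) + 2 * T := this
          _ = _ := by ring
      have h4 : (n : ℝ) < (((n / (2 * T) + 1) * (2 * T) : ℕ) : ℝ) := by exact_mod_cast h3
      push_cast at h4 ⊢
      linarith
    have h5 : ((n : ℝ) / (2 * (T : ℝ))) ^ (k + 1) ≤ (D n : ℝ) := by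
      calc ((n : ℝ) / (2 * (T : ℝ))) ^ (k + 1)
          ≤ ((n / (2 * T) + 1 : ℕ) : ℝ) ^ (k + 1) := by
            apply pow_le_pow_left₀ (by positivity) h2
        _ ≤ (D n : ℝ) := by exact_mod_cast h1
    have hnpos : (0 : ℝ) < n := by exact_mod_cast (by omega : 0 < n)
    rw [le_div_iff₀ (by positivity)]
    calc (n : ℝ) / (2 * (T : ℝ)) ^ (k + 1) * (n : ℝ) ^ k
        = ((n : ℝ) / (2 * (T : ℝ))) ^ (k + 1) := by
          rw [div_pow, pow_succ (n : ℝ) k]; ring
      _ ≤ (D n : ℝ) := h5
  apply tendsto_atTop_mono' atTop (f₁ := fun n : ℕ => (n : ℝ) / (2 * (T : ℝ)) ^ (k + 1))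
  · filter_upwards [eventually_ge_atTop 10] with n hn
    exact hbound n hn
  · exact tendsto_natCast_atTop_atTop.atTop_div_const (by positivity)

lemma C_tendsto (k : ℕ) : Tendsto (fun n : ℕ => (C n : ℝ) / (n : ℝ) ^ k) atTop atTop := by
  apply tendsto_atTop_mono _ (D_tendsto k)
  intro n
  apply div_le_div_of_nonneg_right _ (by positivity)
  exact_mod_cast D_le_C n

lemma a_tendsto : Tendsto a atTop atTop := by
  apply tendsto_atTop_mono' atTop _ (C_tendsto 3)
  filter_upwards [eventually_ge_atTop 2] with n hn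
  unfold a
  have hn' : (2 : ℝ) ≤ n := by exact_mod_cast hn
  have hlog : 0 < Real.log n := Real.log_pos (by linarith)
  have hlog2 : Real.log n ≤ n := (Real.log_le_sub_one_of_pos (by linarith)).trans (by linarith)
  apply div_le_div_of_nonneg_left (by positivity) (by positivity)
  calc (n : ℝ) ^ 2 * Real.log n ≤ (n : ℝ) ^ 2 * n := by gcongr
    _ = (n : ℝ) ^ 3 := by ring

lemma b_tendsto : Tendsto b atTop atTop := by
  apply tendsto_atTop_mono' atTop _ (D_tendsto 3)
  filter_upwards [eventually_ge_atTop 2] with n hn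
  unfold b
  have hn' : (2 : ℝ) ≤ n := by exact_mod_cast hn
  have hlog : 0 < Real.log n := Real.log_pos (by linarith)
  have hlog2 : Real.log n ≤ n := (Real.log_le_sub_one_of_pos (by linarith)).trans (by linarith)
  have hs : Real.sqrt (Real.log n) ≤ n := by
    rw [Real.sqrt_le_left (by linarith)]
    nlinarith
  have hp : (n : ℝ) ^ (3 / 2 : ℝ) ≤ (n : ℝ) ^ 2 := by
    rw [← Real.rpow_natCast]
    apply Real.rpow_le_rpow_of_exponent_le (by linarith)
    norm_num
  apply div_le_div_of_nonneg_left (by positivity) (by positivity)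
  calc (n : ℝ) ^ (3 / 2 : ℝ) * Real.sqrt (Real.log n) ≤ (n : ℝ) ^ 2 * n := by
        apply mul_le_mul hp hs (by positivity) (by positivity)
    _ = (n : ℝ) ^ 3 := by ring

/-- `C(n)` and `D(n)` grow faster than every power of `n`.  In particular `a(n) → ∞` and
`b(n) → ∞`: neither sequence converges to a finite limit, and neither is bounded, i.e. neither
`C(n) = O(n² log n)` nor `D(n) = O(n^{3/2} √(log n))` holds. -/
theorem result :
    (∀ k : ℕ, Tendsto (fun n : ℕ => (C n : ℝ) / (n : ℝ) ^ k) atTop atTop) ∧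
    (∀ k : ℕ, Tendsto (fun n : ℕ => (D n : ℝ) / (n : ℝ) ^ k) atTop atTop) ∧
    Tendsto a atTop atTop ∧ Tendsto b atTop atTop ∧
    (¬ ∃ L : ℝ, Tendsto a atTop (𝓝 L)) ∧ (¬ ∃ L : ℝ, Tendsto b atTop (𝓝 L)) ∧
    ¬ ((fun n : ℕ => (C n : ℝ)) =O[atTop] (fun n : ℕ => (n : ℝ) ^ 2 * Real.log n)) ∧
    ¬ ((fun n : ℕ => (D n : ℝ)) =O[atTop]
        (fun n : ℕ => (n : ℝ) ^ (3 / 2 : ℝ) * Real.sqrt (Real.log n))) := by
  refine ⟨C_tendsto, D_tendsto, a_tendsto, b_tendsto, ?_, ?_, ?_, ?_⟩
  · rintro ⟨L, hL⟩
    exact not_tendsto_nhds_of_tendsto_atTop a_tendsto L hL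
  · rintro ⟨L, hL⟩
    exact not_tendsto_nhds_of_tendsto_atTop b_tendsto L hL
  · intro h
    obtain ⟨c, hc⟩ := h.bound
    have h1 := a_tendsto.eventually_gt_atTop c
    obtain ⟨n, h2, h3, h4⟩ := (hc.and (h1.and (eventually_ge_atTop 2))).exists
    have hn' : (2 : ℝ) ≤ n := by exact_mod_cast h4
    have hlog : 0 < Real.log n := Real.log_pos (by linarith)
    unfold a at h3
    rw [lt_div_iff₀ (by positivity)] at h3
    rw [Real.norm_of_nonneg (by positivity), Real.norm_of_nonneg (by positivity)] at h2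
    linarith
  · intro h
    obtain ⟨c, hc⟩ := h.bound
    have h1 := b_tendsto.eventually_gt_atTop c
    obtain ⟨n, h2, h3, h4⟩ := (hc.and (h1.and (eventually_ge_atTop 2))).exists
    have hn' : (2 : ℝ) ≤ n := by exact_mod_cast h4
    have hlog : 0 < Real.log n := Real.log_pos (by linarith)
    unfold b at h3
    rw [lt_div_iff₀ (by positivity)] at h3
    rw [Real.norm_of_nonneg (by positivity), Real.norm_of_nonneg (by positivity)] at h2
    linarith

end Pool.Agent.Results.MP_dccd56_co.CollisionsTendToInfinity
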